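import Pool.Agent.ACI29.Main

/-!
# Horrocks' inequalities for almost complete intersections

Part 2: let `k` be a field, `S = k[X_1, …, X_m]`, and let `I` be a proper ideal generated by `m+1`
elements which contains a power of every variable.  Let `M` be an `S`-module killed by `I` with
`length M ≥ length S/I`, for example `M = S/I`.  Then the `i`-th module in every resolution of
`M` by free modules of finite rank has rank at least `m.choose i`, for all `i`.

Part 1 is the general inequality behind it: let `S` be a commutative ring, `c_1, …, c_m` a regular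
sequence in `S` such that `A = S/(c_1, …, c_m)` has finite length, `M` an `S`-module killed by the
`c_j`, and `Φ` an `r × r` matrix over `S`.  Then
`m.choose i * length (M^r / Φ M^r) ≤ b_i * length (A^r / Φ A^r)`
for the rank `b_i` of the `i`-th module in every resolution of `M` by free modules of finite rank.
(For part 2 take for `Φ` the `1 × 1` matrix with entry `g`, where `I = (c_1, …, c_m, g)`.)
-/

set_option autoImplicit false

namespace ACI29.Shelf

open MvPolynomial ACI29

universe u v w z

theorem result :
    (∀ (S : Type u) [CommRing S] (m : ℕ) (c : Fin m → S), RegSeq c →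
      Module.length S (S ⧸ Ideal.span (Set.range c)) ≠ ⊤ →
      ∀ (M : Type v) [AddCommGroup M] [Module S M], (∀ (j : Fin m) (y : M), c j • y = 0) →
      ∀ (F : Horr.FreeRes S M) (r : ℕ) (Φ : Matrix (Fin r) (Fin r) S) (i : ℕ),
        (m.choose i : ℕ∞) * cl M Φ ≤ F.rk i * cl (S ⧸ Ideal.span (Set.range c)) Φ) ∧
    (∀ (k : Type w) [Field k] (m : ℕ) (f : Fin (m + 1) → MvPolynomial (Fin m) k),
      AtOrigin (Ideal.span (Set.range f)) →
      ∀ (M : Type z) [AddCommGroup M] [Module (MvPolynomial (Fin m) k) M],
      (∀ (j : Fin (m + 1)) (y : M), f j • y = 0) →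
      Module.length (MvPolynomial (Fin m) k)
          (MvPolynomial (Fin m) k ⧸ Ideal.span (Set.range f)) ≤
        Module.length (MvPolynomial (Fin m) k) M →
      ∀ (F : Horr.FreeRes (MvPolynomial (Fin m) k) M) (i : ℕ), m.choose i ≤ F.rk i) := by
  refine ⟨?_, ?_⟩
  · intro S _ m c hreg hlen M _ _ hM F r Φ i
    exact rank_ineq' c hreg hlen hM F i r Φ
  · intro k _ m f hI M _ _ hM hlen F i
    exact aci f hI.1 hI.2 hM hlen F i

end ACI29.Shelf
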